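import Pool.Agent.BEF.Stmts
import Pool.Agent.Helper10_Oh.ODE

/-! Squad BEF, module GLO: global solutions for a bounded Lipschitz vector field. -/

namespace Pool.Agent.BEF.H89

open scoped NNReal

theorem glo : GloStmt := by
  intro E _ _ _ G K L x0 hG hL
  have h0 : 0 ≤ L := (norm_nonneg _).trans (hL x0)
  exact Pool.Agent.Helper10_Oh.exists_global (fun _ x => G x) K ⟨L, h0⟩ (fun _ => hG)
    (fun _ => continuous_const) (fun _ x => hL x) x0

end Pool.Agent.BEF.H89
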